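import Mathlib

/-!
# Binomial ideals with the Hilbert function of a symmetric ideal

Negative answer: in three variables, over every field of characteristic zero, the principal
symmetric ideal generated by the orbit of `(x + y + z) * (x - y)` has no `k`-symmetric minimal
generator, and its Hilbert function is not that of any symmetric ideal generated by monomials and
binomials.
-/

open MvPolynomial

namespace Pool.Agent.Results.MP_f9b6b5_al.NoBinomialHilbert

section Definitions

variable {n : ℕ} {k : Type*} [Field k]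

/-- A homogeneous ideal: it contains the homogeneous components of each of its elements. -/
def HomogIdeal (I : Ideal (MvPolynomial (Fin n) k)) : Prop :=
  ∀ f ∈ I, ∀ d : ℕ, homogeneousComponent d f ∈ I

/-- A symmetric ideal: `σ(I) = I` for every permutation `σ` of the variables. -/
def SymmIdeal (I : Ideal (MvPolynomial (Fin n) k)) : Prop :=
  ∀ σ : Equiv.Perm (Fin n), Ideal.map (rename (R := k) σ) I = I

/-- The principal symmetric ideal `(f)_{S_n}`, generated by the orbit of `f`. -/
noncomputable def principalSymm (f : MvPolynomial (Fin n) k) : Ideal (MvPolynomial (Fin n) k) :=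
  Ideal.span (Set.range fun σ : Equiv.Perm (Fin n) => rename σ f)

/-- A `k`-symmetric polynomial: nonzero, and invariant up to scalars. -/
def KSymmetric (f : MvPolynomial (Fin n) k) : Prop :=
  f ≠ 0 ∧ ∀ σ : Equiv.Perm (Fin n), ∃ c : k, rename σ f = c • f

/-- `S` is a minimal (homogeneous) generating set of `I`: it consists of homogeneous polynomials,
generates `I`, and no proper subset of it generates `I`. -/
def IsMinGenSet (S : Set (MvPolynomial (Fin n) k)) (I : Ideal (MvPolynomial (Fin n) k)) : Prop :=
  (∀ f ∈ S, ∃ d : ℕ, f.IsHomogeneous d) ∧ Ideal.span S = I ∧ ∀ T ⊂ S, Ideal.span T ≠ I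

/-- A monomial. -/
def IsMonomialPoly (f : MvPolynomial (Fin n) k) : Prop :=
  ∃ s : Fin n →₀ ℕ, f = monomial s 1

/-- A binomial: a polynomial with exactly two terms. -/
def IsBinomialPoly (f : MvPolynomial (Fin n) k) : Prop :=
  ∃ (s t : Fin n →₀ ℕ) (a b : k), s ≠ t ∧ a ≠ 0 ∧ b ≠ 0 ∧ f = monomial s a + monomial t b

/-- The ideal `J` is generated by monomials and binomials. -/
def GenByMonomialsBinomials (J : Ideal (MvPolynomial (Fin n) k)) : Prop :=
  ∃ S : Set (MvPolynomial (Fin n) k),
    (∀ f ∈ S, IsMonomialPoly f ∨ IsBinomialPoly f) ∧ Ideal.span S = J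

/-- The Hilbert function `d ↦ dim (R/I)_d`, where `(R/I)_d` is the image of the space of
homogeneous polynomials of degree `d` in `R/I`. -/
noncomputable def hilb (I : Ideal (MvPolynomial (Fin n) k)) (d : ℕ) : ℕ :=
  Module.finrank k
    ((homogeneousSubmodule (Fin n) k d).map (Ideal.Quotient.mkₐ k I).toLinearMap)

end Definitions

section General

attribute [local instance] MvPolynomial.gradedAlgebra

variable {σ R : Type*} [CommRing R]

lemma decomp_eq (φ : MvPolynomial σ R) (i : ℕ) :
    ((DirectSum.decompose (homogeneousSubmodule σ R) φ) i : MvPolynomial σ R) =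
      homogeneousComponent i φ :=
  decomposition.decompose'_apply φ i

lemma hc_mul_of_le {i n : ℕ} {a : MvPolynomial σ R} (ha : a.IsHomogeneous i)
    (b : MvPolynomial σ R) (h : i ≤ n) :
    homogeneousComponent n (a * b) = a * homogeneousComponent (n - i) b := by
  have := DirectSum.coe_decompose_mul_of_left_mem_of_le (homogeneousSubmodule σ R) (b := b)
    ((mem_homogeneousSubmodule i a).2 ha) h
  rwa [decomp_eq, decomp_eq] at this

lemma hc_mul_of_not_le {i n : ℕ} {a : MvPolynomial σ R} (ha : a.IsHomogeneous i)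
    (b : MvPolynomial σ R) (h : ¬ i ≤ n) :
    homogeneousComponent n (a * b) = 0 := by
  have := DirectSum.coe_decompose_mul_of_left_mem_of_not_le (homogeneousSubmodule σ R) (b := b)
    ((mem_homogeneousSubmodule i a).2 ha) h
  rwa [decomp_eq] at this

lemma hc_mem_span {S : Set (MvPolynomial σ R)} (hS : ∀ f ∈ S, ∃ d : ℕ, f.IsHomogeneous d)
    {f : MvPolynomial σ R} (hf : f ∈ Ideal.span S) (d : ℕ) :
    homogeneousComponent d f ∈ Ideal.span S := by
  have h : (Ideal.span S).IsHomogeneous (homogeneousSubmodule σ R) :=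
    Ideal.homogeneous_span _ _ fun x hx => by
      obtain ⟨d, hd⟩ := hS x hx
      exact ⟨d, hd⟩
  exact homogeneousComponent_mem_of_mem h hf d

end General

section Pieces

variable {n : ℕ} {k : Type*} [Field k]

/-- `I_d`, as a subspace of the polynomial ring. -/
noncomputable def piece (I : Ideal (MvPolynomial (Fin n) k)) (d : ℕ) : Submodule k (MvPolynomial (Fin n) k) :=
  homogeneousSubmodule (Fin n) k d ⊓ I.restrictScalars k

lemma mem_piece {I : Ideal (MvPolynomial (Fin n) k)} {d : ℕ} {f : MvPolynomial (Fin n) k} :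
    f ∈ piece I d ↔ f.IsHomogeneous d ∧ f ∈ I := by
  simp [piece]

instance (d : ℕ) : Module.Finite k (homogeneousSubmodule (Fin n) k d) :=
  Module.Finite.iff_fg.2 (homogeneousSubmodule_fg (Fin n) k d)

instance (I : Ideal (MvPolynomial (Fin n) k)) (d : ℕ) : Module.Finite k (piece I d) :=
  Module.Finite.of_injective (Submodule.inclusion (inf_le_left :
    piece I d ≤ homogeneousSubmodule (Fin n) k d)) (Submodule.inclusion_injective _)

lemma hilb_add_finrank (I : Ideal (MvPolynomial (Fin n) k)) (d : ℕ) :
    hilb I d + Module.finrank k (piece I d) =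
      Module.finrank k (homogeneousSubmodule (Fin n) k d) := by
  set φ : homogeneousSubmodule (Fin n) k d →ₗ[k] (MvPolynomial (Fin n) k ⧸ I) :=
    (Ideal.Quotient.mkₐ k I).toLinearMap.domRestrict (homogeneousSubmodule (Fin n) k d) with hφ
  have h1 := LinearMap.finrank_range_add_finrank_ker φ
  have h2 : LinearMap.range φ =
      (homogeneousSubmodule (Fin n) k d).map (Ideal.Quotient.mkₐ k I).toLinearMap := by
    rw [hφ, LinearMap.range_domRestrict]
  have h3 : Module.finrank k (LinearMap.ker φ) = Module.finrank k (piece I d) := by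
    have h4 : (LinearMap.ker φ).map (homogeneousSubmodule (Fin n) k d).subtype = piece I d := by
      ext f
      simp only [Submodule.mem_map, LinearMap.mem_ker, Submodule.subtype_apply, Subtype.exists,
        exists_and_right, exists_eq_right, mem_piece]
      constructor
      · rintro ⟨hf, h⟩
        refine ⟨hf, ?_⟩
        have : (Ideal.Quotient.mk I) f = 0 := h
        exact Ideal.Quotient.eq_zero_iff_mem.1 this
      · rintro ⟨hf, h⟩
        refine ⟨hf, ?_⟩
        have : (Ideal.Quotient.mk I) f = 0 := Ideal.Quotient.eq_zero_iff_mem.2 h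
        exact this
    rw [← h4]
    exact (LinearEquiv.finrank_eq (Submodule.equivMapOfInjective _
      (Submodule.injective_subtype _) _))
  rw [h2, h3] at h1
  exact h1

lemma finrank_piece_eq {I J : Ideal (MvPolynomial (Fin n) k)} {d : ℕ}
    (h : hilb I d = hilb J d) :
    Module.finrank k (piece J d) = Module.finrank k (piece I d) := by
  have h1 := hilb_add_finrank I d
  have h2 := hilb_add_finrank J d
  omega

lemma mem_of_symm {J : Ideal (MvPolynomial (Fin n) k)} (hJ : SymmIdeal J)
    (σ : Equiv.Perm (Fin n)) {f : MvPolynomial (Fin n) k} (hf : f ∈ J) : rename σ f ∈ J := by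
  rw [← hJ σ]
  exact Ideal.mem_map_of_mem _ hf

lemma symm_of_forall {I : Ideal (MvPolynomial (Fin n) k)}
    (h : ∀ σ : Equiv.Perm (Fin n), ∀ f ∈ I, rename σ f ∈ I) : SymmIdeal I := by
  intro σ
  apply le_antisymm
  · rw [Ideal.map_le_iff_le_comap]
    intro f hf
    exact h σ f hf
  · intro f hf
    have h1 : rename σ (rename (σ⁻¹ : Equiv.Perm (Fin n)) f) = f := by
      rw [rename_rename]
      have : (⇑σ ∘ ⇑(σ⁻¹ : Equiv.Perm (Fin n))) = id := by
        funext x; simp
      rw [this, rename_id]; rfl
    rw [← h1]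
    exact Ideal.mem_map_of_mem _ (h σ⁻¹ f hf)

lemma principalSymm_symm (f : MvPolynomial (Fin n) k) : SymmIdeal (principalSymm f) := by
  apply symm_of_forall
  intro σ g hg
  have : principalSymm f ≤ Ideal.comap (rename (R := k) σ) (principalSymm f) := by
    rw [principalSymm, Ideal.span_le]
    rintro _ ⟨τ, rfl⟩
    simp only [SetLike.mem_coe, Ideal.mem_comap]
    rw [rename_rename]
    exact Ideal.subset_span ⟨σ * τ, rfl⟩
  exact this hg

end Pieces

section Concrete

variable {k : Type*} [Field k]

/-- The degree-two monomials in three variables: `m true i = x_i ^ 2` and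
`m false i = x_(i+1) * x_(i+2)` (indices mod 3). -/
noncomputable def m (τ : Bool) (i : Fin 3) : MvPolynomial (Fin 3) k :=
  if τ then X i ^ 2 else X (i + 1) * X (i + 2)

lemma rename_m (σ : Equiv.Perm (Fin 3)) (τ : Bool) (i : Fin 3) :
    rename σ (m τ i : MvPolynomial (Fin 3) k) = m τ (σ i) := by
  cases τ
  · have key : ∀ (σ : Equiv.Perm (Fin 3)) (i : Fin 3),
        (σ (i + 1) = σ i + 1 ∧ σ (i + 2) = σ i + 2) ∨
          (σ (i + 1) = σ i + 2 ∧ σ (i + 2) = σ i + 1) := by
      decide
    rcases key σ i with ⟨h1, h2⟩ | ⟨h1, h2⟩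
    · simp [m, h1, h2]
    · simp [m, h1, h2, mul_comm]
  · simp [m]

lemma isHomogeneous_m (τ : Bool) (i : Fin 3) :
    (m τ i : MvPolynomial (Fin 3) k).IsHomogeneous 2 := by
  cases τ
  · simpa [m] using (isHomogeneous_X k (i + 1)).mul (isHomogeneous_X k (i + 2))
  · simpa [m] using (isHomogeneous_X k i).pow 2

/-- every monomial of degree two is one of the `m τ i`. -/
lemma exists_m (s : Fin 3 →₀ ℕ) (hs : s.degree = 2) :
    ∃ τ i, (monomial s (1 : k) : MvPolynomial (Fin 3) k) = m τ i := by
  have h0 : s 0 + s 1 + s 2 = 2 := by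
    rw [Finsupp.degree_eq_sum] at hs
    simpa [Fin.sum_univ_three] using hs
  have hX : ∀ t : Fin 3 →₀ ℕ, (monomial t (1 : k) : MvPolynomial (Fin 3) k) =
      X 0 ^ t 0 * X 1 ^ t 1 * X 2 ^ t 2 := by
    intro t
    rw [monomial_eq]
    simp [Finsupp.prod_fintype, Fin.prod_univ_three]
  rw [hX]
  have h1 : s 0 ≤ 2 := by omega
  have h2 : s 1 ≤ 2 := by omega
  have h3 : s 2 = 2 - s 0 - s 1 := by omega
  rw [h3]
  interval_cases h4 : s 0 <;> interval_cases h5 : s 1
  all_goals first
    | (exfalso; omega)
    | (refine ⟨true, 0, ?_⟩; simp [m]; done)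
    | (refine ⟨true, 1, ?_⟩; simp [m]; done)
    | (refine ⟨true, 2, ?_⟩; simp [m]; done)
    | (refine ⟨false, 0, ?_⟩; simp [m]; done)
    | (refine ⟨false, 1, ?_⟩; simp [m, mul_comm]; done)
    | (refine ⟨false, 2, ?_⟩; simp [m])

/-- The generator `(x + y + z) * (x - y)`. -/
noncomputable def gen (k : Type*) [Field k] : MvPolynomial (Fin 3) k :=
  (X 0 + X 1 + X 2) * (X 0 - X 1)

/-- The second basis element `(x + y + z) * (y - z)` of the degree-two piece. -/
noncomputable def gen' (k : Type*) [Field k] : MvPolynomial (Fin 3) k :=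
  (X 0 + X 1 + X 2) * (X 1 - X 2)

lemma isHomogeneous_gen : (gen k).IsHomogeneous 2 := by
  have h := (((isHomogeneous_X k (0 : Fin 3)).add (isHomogeneous_X k 1)).add
    (isHomogeneous_X k 2)).mul ((isHomogeneous_X k (0 : Fin 3)).sub (isHomogeneous_X k 1))
  exact h

lemma isHomogeneous_gen' : (gen' k).IsHomogeneous 2 := by
  have h := (((isHomogeneous_X k (0 : Fin 3)).add (isHomogeneous_X k 1)).add
    (isHomogeneous_X k 2)).mul ((isHomogeneous_X k (1 : Fin 3)).sub (isHomogeneous_X k 2))
  exact h

lemma rename_gen (σ : Equiv.Perm (Fin 3)) :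
    rename σ (gen k) = (X 0 + X 1 + X 2) * (X (σ 0) - X (σ 1)) := by
  have h : (X (σ 0) + X (σ 1) + X (σ 2) : MvPolynomial (Fin 3) k) = X 0 + X 1 + X 2 := by
    have := Equiv.sum_comp σ (fun i => (X i : MvPolynomial (Fin 3) k))
    simpa [Fin.sum_univ_three] using this
  simp [gen, h]

lemma principal_eq : principalSymm (gen k) = Ideal.span {gen k, gen' k} := by
  apply le_antisymm
  · rw [principalSymm, Ideal.span_le]
    rintro _ ⟨σ, rfl⟩
    simp only [SetLike.mem_coe]
    rw [rename_gen, Ideal.mem_span_pair]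
    generalize σ 0 = i
    generalize σ 1 = j
    have h00 : ∀ i : Fin 3, ∃ a b : MvPolynomial (Fin 3) k,
        a * gen k + b * gen' k = (X 0 + X 1 + X 2) * (X i - X 2) := by
      intro i
      fin_cases i
      · exact ⟨1, 1, by simp [gen, gen']; ring⟩
      · exact ⟨0, 1, by simp [gen, gen']⟩
      · exact ⟨0, 0, by simp⟩
    obtain ⟨a, b, h1⟩ := h00 i
    obtain ⟨c, d, h2⟩ := h00 j
    refine ⟨a - c, b - d, ?_⟩
    linear_combination h1 - h2
  · rw [Ideal.span_le]
    intro f hf
    simp only [Set.mem_insert_iff, Set.mem_singleton_iff] at hf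
    rcases hf with rfl | rfl
    · refine Ideal.subset_span ⟨1, ?_⟩
      simp only [gen]
      simp
    · refine Ideal.subset_span ⟨finRotate 3, ?_⟩
      simp only [rename_gen, gen']
      simp

/-- the ideal of the counterexample -/
noncomputable def ideal (k : Type*) [Field k] : Ideal (MvPolynomial (Fin 3) k) :=
  principalSymm (gen k)

lemma mem_ideal {f : MvPolynomial (Fin 3) k} :
    f ∈ ideal k ↔ ∃ a b, gen k * a + gen' k * b = f := by
  rw [ideal, principal_eq, Ideal.mem_span_pair]
  simp only [mul_comm]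

lemma hc_of_lt {f : MvPolynomial (Fin 3) k} (hf : f ∈ ideal k) {d : ℕ} (hd : d < 2) :
    homogeneousComponent d f = 0 := by
  obtain ⟨a, b, rfl⟩ := mem_ideal.1 hf
  rw [map_add, hc_mul_of_not_le isHomogeneous_gen _ (by omega),
    hc_mul_of_not_le isHomogeneous_gen' _ (by omega), add_zero]

lemma hc_of_le {a b : MvPolynomial (Fin 3) k} {d : ℕ} (hd : 2 ≤ d) :
    homogeneousComponent d (gen k * a + gen' k * b) =
      gen k * homogeneousComponent (d - 2) a + gen' k * homogeneousComponent (d - 2) b := by
  rw [map_add, hc_mul_of_le isHomogeneous_gen _ hd, hc_mul_of_le isHomogeneous_gen' _ hd]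

lemma homogIdeal_ideal : HomogIdeal (ideal k) := by
  intro f hf d
  by_cases hd : 2 ≤ d
  · obtain ⟨a, b, rfl⟩ := mem_ideal.1 hf
    rw [hc_of_le hd]
    exact mem_ideal.2 ⟨_, _, rfl⟩
  · rw [hc_of_lt hf (by omega)]
    exact zero_mem _

lemma piece_bot {d : ℕ} (hd : d < 2) : piece (ideal k) d = ⊥ := by
  rw [eq_bot_iff]
  intro f hf
  rw [mem_piece] at hf
  have h1 := homogeneousComponent_eq_self hf.1
  rw [hc_of_lt hf.2 hd] at h1
  simp [← h1]

lemma piece_two_le : piece (ideal k) 2 ≤ Submodule.span k (Set.range ![gen k, gen' k]) := by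
  intro f hf
  rw [mem_piece] at hf
  obtain ⟨a, b, hab⟩ := mem_ideal.1 hf.2
  have h1 := homogeneousComponent_eq_self hf.1
  rw [← hab, hc_of_le le_rfl, hab] at h1
  rw [← h1]
  simp only [Nat.sub_self, homogeneousComponent_zero]
  rw [mul_comm (gen k), mul_comm (gen' k), ← smul_eq_C_mul, ← smul_eq_C_mul]
  apply Submodule.add_mem
  · exact Submodule.smul_mem _ _ (Submodule.subset_span ⟨0, rfl⟩)
  · exact Submodule.smul_mem _ _ (Submodule.subset_span ⟨1, rfl⟩)

lemma finrank_piece_two_le : Module.finrank k (piece (ideal k) 2) ≤ 2 := by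
  have : FiniteDimensional k (Submodule.span k (Set.range ![gen k, gen' k])) :=
    FiniteDimensional.span_of_finite k (Set.finite_range _)
  have h1 := Submodule.finrank_mono (piece_two_le (k := k))
  have h2 := finrank_range_le_card (R := k) (![gen k, gen' k])
  simp only [Set.finrank, Fintype.card_fin] at h2
  exact h1.trans h2

lemma gen_ne_zero : gen k ≠ 0 := by
  intro h
  have := congrArg (eval ![1, 0, 0]) h
  simp [gen] at this

lemma finrank_piece_two_ne : Module.finrank k (piece (ideal k) 2) ≠ 0 := by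
  intro h
  rw [Submodule.finrank_eq_zero] at h
  have : gen k ∈ piece (ideal k) 2 :=
    mem_piece.2 ⟨isHomogeneous_gen, mem_ideal.2 ⟨1, 0, by simp⟩⟩
  rw [h] at this
  exact gen_ne_zero (by simpa using this)

lemma exists_linear {f : MvPolynomial (Fin 3) k} (hf : f.IsHomogeneous 1) :
    ∃ c : Fin 3 → k, f = c 0 • X 0 + c 1 • X 1 + c 2 • X 2 := by
  have h1 : f ∈ Submodule.span k (Set.range (X : Fin 3 → MvPolynomial (Fin 3) k)) := by
    rw [← homogeneousSubmodule_one_eq_span_X]; exact hf
  obtain ⟨c, hc⟩ := (Submodule.mem_span_range_iff_exists_fun k).1 h1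
  exact ⟨c, by rw [← hc, Fin.sum_univ_three]⟩

lemma piece_three_le : piece (ideal k) 3 ≤ Submodule.span k
    (Set.range ![gen k * X 0, gen k * X 1, gen k * X 2, gen' k * X 0, gen' k * X 2]) := by
  intro f hf
  rw [mem_piece] at hf
  obtain ⟨a, b, hab⟩ := mem_ideal.1 hf.2
  have h1 := homogeneousComponent_eq_self hf.1
  rw [← hab, hc_of_le (by norm_num), hab] at h1
  obtain ⟨c, hc⟩ := exists_linear (homogeneousComponent_isHomogeneous 1 a)
  obtain ⟨e, he⟩ := exists_linear (homogeneousComponent_isHomogeneous 1 b)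
  simp only [show 3 - 2 = 1 from rfl] at h1
  rw [hc, he] at h1
  rw [← h1, Submodule.mem_span_range_iff_exists_fun]
  refine ⟨![c 0, c 1 - e 1, c 2 + e 1, e 0 + e 1, e 2], ?_⟩
  simp only [Fin.sum_univ_five, gen, gen', smul_eq_C_mul, Matrix.cons_val, map_add, map_sub]
  ring

lemma finrank_piece_three_le : Module.finrank k (piece (ideal k) 3) ≤ 5 := by
  have : FiniteDimensional k (Submodule.span k (Set.range
      ![gen k * X 0, gen k * X 1, gen k * X 2, gen' k * X 0, gen' k * X 2])) :=
    FiniteDimensional.span_of_finite k (Set.finite_range _)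
  have h1 := Submodule.finrank_mono (piece_three_le (k := k))
  have h2 := finrank_range_le_card (R := k)
    (![gen k * X 0, gen k * X 1, gen k * X 2, gen' k * X 0, gen' k * X 2])
  simp only [Set.finrank, Fintype.card_fin] at h2
  exact h1.trans h2

/-! ### no minimal generator is `k`-symmetric -/

lemma ksymm_coeff [CharZero k] {f : MvPolynomial (Fin 3) k} (hf : KSymmetric f) {a b : k}
    (h : homogeneousComponent 2 f = a • gen k + b • gen' k) : a = 0 ∧ b = 0 := by
  have key : ∀ σ : Equiv.Perm (Fin 3), ∃ c : k,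
      rename σ (a • gen k + b • gen' k) = c • (a • gen k + b • gen' k) := by
    intro σ
    obtain ⟨c, hc⟩ := hf.2 σ
    refine ⟨c, ?_⟩
    rw [← h, rename_homogeneousComponent, hc, map_smul]
  obtain ⟨c, hc⟩ := key (Equiv.swap 0 1)
  obtain ⟨d, hd⟩ := key (Equiv.swap 1 2)
  have e1 := congrArg (eval ![(1 : k), 0, 0]) hc
  have e2 := congrArg (eval ![(0 : k), 0, 1]) hc
  have e3 := congrArg (eval ![(0 : k), 1, 0]) hc
  have e4 := congrArg (eval ![(1 : k), 0, 0]) hd
  have e5 := congrArg (eval ![(0 : k), 0, 1]) hd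
  have e6 := congrArg (eval ![(0 : k), 1, 0]) hd
  simp [gen, gen', Equiv.swap_apply_of_ne_of_ne] at e1 e2 e3 e4 e5 e6
  have ha : a = 0 := by
    by_contra ha
    have hd1 : d = 1 := mul_right_cancel₀ ha (by rw [one_mul]; exact e4.symm)
    have h2 : a = 2 * b := by rw [hd1] at e5; linear_combination -e5
    have hb : b ≠ 0 := by
      intro hb
      rw [hb, mul_zero] at h2
      exact ha h2
    have hc1 : c = 1 := mul_right_cancel₀ hb (by rw [one_mul]; exact e2.symm)
    have h3 : (3 : k) * b = 0 := by rw [hc1] at e1; linear_combination -e1 - 2 * h2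
    rcases mul_eq_zero.1 h3 with h4 | h4
    · exact (by norm_num : (3 : k) ≠ 0) h4
    · exact hb h4
  refine ⟨ha, ?_⟩
  rw [ha] at e1
  simpa using e1

/-- every `k`-symmetric polynomial in the ideal `I` lies in `m I`, `m` the ideal generated by the
variables. -/
lemma ksymm_mem [CharZero k] {f : MvPolynomial (Fin 3) k} (hf : f ∈ ideal k)
    (hs : KSymmetric f) : f ∈ Ideal.span (Set.range (X : Fin 3 → MvPolynomial (Fin 3) k)) * ideal k := by
  obtain ⟨a, b, hab⟩ := mem_ideal.1 hf
  have h2 : homogeneousComponent 2 f = coeff 0 a • gen k + coeff 0 b • gen' k := by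
    rw [← hab, hc_of_le le_rfl]
    simp only [Nat.sub_self, homogeneousComponent_zero]
    rw [mul_comm (gen k), mul_comm (gen' k), ← smul_eq_C_mul, ← smul_eq_C_mul]
  obtain ⟨ha, hb⟩ := ksymm_coeff hs h2
  have hmem : ∀ g : MvPolynomial (Fin 3) k, coeff 0 g = 0 →
      g ∈ Ideal.span (Set.range (X : Fin 3 → MvPolynomial (Fin 3) k)) := by
    intro g hg
    have h1 : g ∈ RingHom.ker (constantCoeff : MvPolynomial (Fin 3) k →+* k) := by
      rw [RingHom.mem_ker, constantCoeff_eq]; exact hg
    rw [← Set.image_univ, mem_ideal_span_X_image]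
    intro t ht
    by_contra hcon
    push Not at hcon
    have : t = 0 := by
      ext i
      simpa using hcon i (Set.mem_univ _)
    rw [this, mem_support_iff] at ht
    exact ht hg
  rw [← hab]
  apply Ideal.add_mem
  · rw [mul_comm (gen k) a]
    exact Ideal.mul_mem_mul (hmem a ha) (mem_ideal.2 ⟨1, 0, by simp⟩)
  · rw [mul_comm (gen' k) b]
    exact Ideal.mul_mem_mul (hmem b hb) (mem_ideal.2 ⟨0, 1, by simp⟩)

lemma minGen_not_mem {I : Ideal (MvPolynomial (Fin 3) k)} {S : Set (MvPolynomial (Fin 3) k)}
    (hS : IsMinGenSet S I) {f : MvPolynomial (Fin 3) k} (hf : f ∈ S) :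
    f ∉ Ideal.span (Set.range (X : Fin 3 → MvPolynomial (Fin 3) k)) * I := by
  intro hfm
  obtain ⟨hhom, hspan, hmin⟩ := hS
  set M := Ideal.span (Set.range (X : Fin 3 → MvPolynomial (Fin 3) k)) with hM
  set J := Ideal.span (S \ {f}) with hJ
  have hsplit : I = J ⊔ Ideal.span {f} := by
    rw [← hspan, hJ, ← Ideal.span_union, Set.sdiff_union_self, Set.union_eq_left.2]
    simpa using hf
  obtain ⟨d, hd⟩ := hhom f hf
  have hfJ : f ∈ J := by
    rw [hsplit, Ideal.mul_sup, Submodule.mem_sup] at hfm
    obtain ⟨j, hj, g, hg, hjg⟩ := hfm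
    have hj' : j ∈ J := (Ideal.mul_le_right : M * J ≤ J) hj
    obtain ⟨a, ha, rfl⟩ := Ideal.mem_mul_span_singleton.1 hg
    have hjd : homogeneousComponent d j ∈ J :=
      hc_mem_span (fun x hx => hhom x hx.1) hj' d
    have ha0 : coeff 0 a = 0 := by
      have h1 : M ≤ RingHom.ker (constantCoeff : MvPolynomial (Fin 3) k →+* k) := by
        rw [hM, Ideal.span_le]
        rintro _ ⟨i, rfl⟩
        simp [RingHom.mem_ker]
      have h2 := h1 ha
      rwa [RingHom.mem_ker, constantCoeff_eq] at h2
    have h3 := congrArg (homogeneousComponent d) hjg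
    rw [map_add, mul_comm a f, hc_mul_of_le hd _ le_rfl, Nat.sub_self, homogeneousComponent_zero,
      ha0, C_0, mul_zero, add_zero, homogeneousComponent_eq_self hd] at h3
    rw [← h3]
    exact hjd
  have hJI : J = I := by
    rw [hsplit]
    exact (sup_eq_left.2 ((Ideal.span_singleton_le_iff_mem _).2 hfJ)).symm
  exact hmin (S \ {f}) (by
    refine ⟨Set.sdiff_subset, fun h => ?_⟩
    exact (h hf).2 rfl) hJI

/-! ### symmetric ideals generated by monomials and binomials -/

/-- some nonzero combination of at most two distinct monomials of degree two lies in `J`. -/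
lemma exists_two_term {J : Ideal (MvPolynomial (Fin 3) k)} (hh : HomogIdeal J)
    (hg : GenByMonomialsBinomials J) (h0 : piece J 0 = ⊥) (h1 : piece J 1 = ⊥)
    (h2 : Module.finrank k (piece J 2) ≠ 0) :
    ∃ (s t : Fin 3 →₀ ℕ) (a b : k), s ≠ t ∧ s.degree = 2 ∧ t.degree = 2 ∧ a ≠ 0 ∧
      monomial s a + monomial t b ∈ J := by
  obtain ⟨S, hS, rfl⟩ := hg
  -- the components of degree `< 2` of elements of `J` vanish
  have hlow : ∀ g ∈ Ideal.span S, ∀ d < 2, homogeneousComponent d g = 0 := by
    intro g hg d hd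
    have hmem : homogeneousComponent d g ∈ piece (Ideal.span S) d :=
      mem_piece.2 ⟨homogeneousComponent_isHomogeneous d g, hh g hg d⟩
    interval_cases d
    · rw [h0] at hmem; simpa using hmem
    · rw [h1] at hmem; simpa using hmem
  -- some generator has a nonzero coefficient in degree two
  obtain ⟨g, hgS, hg2⟩ : ∃ g ∈ S, homogeneousComponent 2 g ≠ 0 := by
    by_contra hcon
    push Not at hcon
    apply h2
    rw [Submodule.finrank_eq_zero, eq_bot_iff]
    intro f hf
    rw [mem_piece] at hf
    -- all coefficients of degree at most two of elements of `J` vanish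
    have hall : ∀ f ∈ Ideal.span S, ∀ u : Fin 3 →₀ ℕ, u.degree ≤ 2 → coeff u f = 0 := by
      intro f hf
      induction hf using Submodule.span_induction with
      | mem x hx =>
        intro u hu
        have h3 : homogeneousComponent u.degree x = 0 := by
          rcases Nat.lt_or_ge u.degree 2 with h | h
          · exact hlow x (Ideal.subset_span hx) _ h
          · rw [show u.degree = 2 by omega]
            exact hcon x hx
        have h4 := coeff_homogeneousComponent u.degree x u
        rw [h3] at h4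
        simpa using h4.symm
      | zero => intro u _; simp
      | add x y _ _ hx hy => intro u hu; rw [coeff_add, hx u hu, hy u hu, add_zero]
      | smul a x _ hx =>
        intro u hu
        rw [smul_eq_mul, coeff_mul]
        apply Finset.sum_eq_zero
        rintro ⟨v, w⟩ hvw
        rw [Finset.HasAntidiagonal.mem_antidiagonal] at hvw
        simp only at hvw ⊢
        have h5 : w.degree ≤ 2 := by
          have := congrArg Finsupp.degree hvw
          rw [map_add] at this
          omega
        rw [hx w h5, mul_zero]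
    have : f = 0 := by
      ext u
      by_cases hu : u.degree = 2
      · rw [hall f hf.2 u hu.le, coeff_zero]
      · rw [hf.1.coeff_eq_zero hu, coeff_zero]
    simp [this]
  have hgJ : homogeneousComponent 2 g ∈ Ideal.span S := hh g (Ideal.subset_span hgS) 2
  have hmono : ∀ (u : Fin 3 →₀ ℕ) (c : k), homogeneousComponent 2 (monomial u c) =
      if u.degree = 2 then monomial u c else 0 := by
    intro u c
    exact homogeneousComponent_of_mem (isHomogeneous_monomial c rfl) |>.trans (by
      simp [eq_comm])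
  have hother : ∀ s : Fin 3 →₀ ℕ, ∃ t : Fin 3 →₀ ℕ, s ≠ t ∧ t.degree = 2 := by
    intro s
    by_cases h : s = Finsupp.single 0 2
    · refine ⟨Finsupp.single 1 2, ?_, by simp⟩
      rw [h]
      intro hcon
      have := DFunLike.congr_fun hcon 0
      simp at this
    · exact ⟨Finsupp.single 0 2, h, by simp⟩
  rcases hS g hgS with ⟨s, rfl⟩ | ⟨s, t, a, b, hst, ha, hb, rfl⟩
  · rw [hmono] at hg2 hgJ
    by_cases hs : s.degree = 2
    · rw [if_pos hs] at hgJ
      obtain ⟨t, hst, ht⟩ := hother s
      exact ⟨s, t, 1, 0, hst, hs, ht, one_ne_zero, by simpa using hgJ⟩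
    · rw [if_neg hs] at hg2
      exact absurd rfl hg2
  · rw [map_add, hmono, hmono] at hg2 hgJ
    by_cases hs : s.degree = 2 <;> by_cases ht : t.degree = 2
    · rw [if_pos hs, if_pos ht] at hgJ
      exact ⟨s, t, a, b, hst, hs, ht, ha, hgJ⟩
    · rw [if_pos hs, if_neg ht] at hgJ
      obtain ⟨t', hst', ht'⟩ := hother s
      exact ⟨s, t', a, 0, hst', hs, ht', ha, by simpa using hgJ⟩
    · rw [if_neg hs, if_pos ht, zero_add] at hgJ
      obtain ⟨s', hst', hs'⟩ := hother t
      exact ⟨t, s', b, 0, hst', ht, hs', hb, by simpa using hgJ⟩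
    · rw [if_neg hs, if_neg ht] at hg2
      simp at hg2

/-- `{m τ p - m τ q} ⊆ J` as soon as one `m τ i - m τ j`, `i ≠ j`, lies in `J`. -/
lemma all_diff {J : Ideal (MvPolynomial (Fin 3) k)} (hJ : SymmIdeal J) {τ : Bool} {i j : Fin 3}
    (hij : i ≠ j) (h : (m τ i - m τ j : MvPolynomial (Fin 3) k) ∈ J) (p q : Fin 3) :
    (m τ p - m τ q : MvPolynomial (Fin 3) k) ∈ J := by
  by_cases hpq : p = q
  · rw [hpq, sub_self]; exact zero_mem _
  · obtain ⟨σ, h1, h2⟩ : ∃ σ : Equiv.Perm (Fin 3), σ i = p ∧ σ j = q := by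
      clear h
      revert i j p q
      decide
    have := mem_of_symm hJ σ h
    rwa [map_sub, rename_m, rename_m, h1, h2] at this

lemma le_finrank {J : Ideal (MvPolynomial (Fin 3) k)} {d N : ℕ}
    (v : Fin N → MvPolynomial (Fin 3) k) (hv : ∀ i, v i ∈ piece J d)
    (hli : ∀ c : Fin N → k, ∑ i, c i • v i = 0 → ∀ i, c i = 0) :
    N ≤ Module.finrank k (piece J d) := by
  have h1 : LinearIndependent k v := Fintype.linearIndependent_iff.2 hli
  have h2 : LinearIndependent k (fun i => (⟨v i, hv i⟩ : piece J d)) := by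
    apply LinearIndependent.of_comp (piece J d).subtype
    exact h1
  simpa using h2.fintype_card_le_finrank

lemma six_le_of_true [CharZero k] {J : Ideal (MvPolynomial (Fin 3) k)}
    (h : ∀ p q : Fin 3, (m true p - m true q : MvPolynomial (Fin 3) k) ∈ J) :
    6 ≤ Module.finrank k (piece J 3) := by
  have hmem : ∀ i p q : Fin 3, (X i * (m true p - m true q) : MvPolynomial (Fin 3) k) ∈
      piece J 3 := fun i p q => mem_piece.2 ⟨(isHomogeneous_X k i).mul
        ((isHomogeneous_m true p).sub (isHomogeneous_m true q)), Ideal.mul_mem_left _ _ (h p q)⟩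
  apply le_finrank ![X 0 * (m true 0 - m true 1), X 1 * (m true 0 - m true 1),
    X 2 * (m true 0 - m true 1), X 0 * (m true 1 - m true 2), X 1 * (m true 1 - m true 2),
    X 2 * (m true 1 - m true 2)]
  · intro i
    fin_cases i <;> exact hmem _ _ _
  · intro c hc
    simp only [Fin.sum_univ_six, Matrix.cons_val, m, if_true] at hc
    have e1 := congrArg (eval ![(0 : k), 1, 1]) hc
    have e2 := congrArg (eval ![(0 : k), 1, -1]) hc
    have e3 := congrArg (eval ![(2 : k), 1, 1]) hc
    have e4 := congrArg (eval ![(1 : k), 1, 0]) hc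
    have e5 := congrArg (eval ![(1 : k), -1, 0]) hc
    have e6 := congrArg (eval ![(1 : k), 1, 2]) hc
    simp [smul_eval] at e1 e2 e3 e4 e5 e6
    have c1 : c 1 = 0 := by
      have : (2 : k) * c 1 = 0 := by linear_combination -e1 - e2
      simpa using this
    have c2 : c 2 = 0 := by linear_combination e2 + c1
    have c0 : c 0 = 0 := by
      have : (6 : k) * c 0 = 0 := by linear_combination e3 - 3 * c1 - 3 * c2
      simpa using this
    have c4 : c 4 = 0 := by
      have : (2 : k) * c 4 = 0 := by linear_combination e4 - e5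
      simpa using this
    have c3 : c 3 = 0 := by linear_combination e4 - c4
    have c5 : c 5 = 0 := by
      have : (6 : k) * c 5 = 0 := by linear_combination -e6 - 3 * c3 - 3 * c4
      simpa using this
    intro i
    fin_cases i
    exacts [c0, c1, c2, c3, c4, c5]

lemma six_le_of_false [CharZero k] {J : Ideal (MvPolynomial (Fin 3) k)}
    (h : ∀ p q : Fin 3, (m false p - m false q : MvPolynomial (Fin 3) k) ∈ J) :
    6 ≤ Module.finrank k (piece J 3) := by
  have hmem : ∀ i p q : Fin 3, (X i * (m false p - m false q) : MvPolynomial (Fin 3) k) ∈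
      piece J 3 := fun i p q => mem_piece.2 ⟨(isHomogeneous_X k i).mul
        ((isHomogeneous_m false p).sub (isHomogeneous_m false q)),
          Ideal.mul_mem_left _ _ (h p q)⟩
  apply le_finrank ![X 0 * (m false 0 - m false 1), X 1 * (m false 0 - m false 1),
    X 2 * (m false 0 - m false 1), X 0 * (m false 1 - m false 2), X 1 * (m false 1 - m false 2),
    X 2 * (m false 1 - m false 2)]
  · intro i
    fin_cases i <;> exact hmem _ _ _
  · intro c hc
    simp only [Fin.sum_univ_six, Matrix.cons_val, m] at hc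
    have e1 := congrArg (eval ![(0 : k), 1, 1]) hc
    have e2 := congrArg (eval ![(0 : k), 1, -1]) hc
    have e3 := congrArg (eval ![(2 : k), 1, 1]) hc
    have e4 := congrArg (eval ![(1 : k), 1, 0]) hc
    have e5 := congrArg (eval ![(1 : k), -1, 0]) hc
    have e6 := congrArg (eval ![(1 : k), 1, 2]) hc
    simp [smul_eval] at e1 e2 e3 e4 e5 e6
    have c2 : c 2 = 0 := by
      have : (2 : k) * c 2 = 0 := by linear_combination e1 + e2
      simpa using this
    have c1 : c 1 = 0 := by linear_combination e1 - c2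
    have c0 : c 0 = 0 := by
      have : (2 : k) * c 0 = 0 := by linear_combination -e3 - c1 - c2
      simpa using this
    have c4 : c 4 = 0 := by
      have : (2 : k) * c 4 = 0 := by linear_combination -e4 - e5
      simpa using this
    have c3 : c 3 = 0 := by linear_combination e5 + c4
    have c5 : c 5 = 0 := by
      have : (2 : k) * c 5 = 0 := by linear_combination e6 - c3 - c4
      simpa using this
    intro i
    fin_cases i
    exacts [c0, c1, c2, c3, c4, c5]

lemma three_le {J : Ideal (MvPolynomial (Fin 3) k)} {a b : k} (ha : a ≠ 0)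
    (h : ∀ i : Fin 3, (C a * m true i + C b * m false i : MvPolynomial (Fin 3) k) ∈ J) :
    3 ≤ Module.finrank k (piece J 2) := by
  have hmem : ∀ i : Fin 3, (C a * m true i + C b * m false i : MvPolynomial (Fin 3) k) ∈
      piece J 2 := by
    intro i
    refine mem_piece.2 ⟨?_, h i⟩
    have h1 := (isHomogeneous_C (Fin 3) a).mul (isHomogeneous_m (k := k) true i)
    have h2 := (isHomogeneous_C (Fin 3) b).mul (isHomogeneous_m (k := k) false i)
    rw [zero_add] at h1 h2
    exact h1.add h2
  apply le_finrank (fun i : Fin 3 => C a * m true i + C b * m false i) hmem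
  intro c hc
  rw [Fin.sum_univ_three] at hc
  simp only [m] at hc
  have e1 := congrArg (eval ![(1 : k), 0, 0]) hc
  have e2 := congrArg (eval ![(0 : k), 1, 0]) hc
  have e3 := congrArg (eval ![(0 : k), 0, 1]) hc
  simp [smul_eval, ha] at e1 e2 e3
  intro i
  fin_cases i
  exacts [e1, e2, e3]

/-- The key alternative. -/
lemma key [CharZero k] {J : Ideal (MvPolynomial (Fin 3) k)} (hs : SymmIdeal J)
    {τ τ' : Bool} {i j : Fin 3} {a b : k} (ha : a ≠ 0) (hne : ¬ (τ = τ' ∧ i = j))
    (h : (C a * m τ i + C b * m τ' j : MvPolynomial (Fin 3) k) ∈ J) :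
    3 ≤ Module.finrank k (piece J 2) ∨ 6 ≤ Module.finrank k (piece J 3) := by
  -- if some `m τ p - m τ q`, `p ≠ q`, lies in `J`
  have hsix : ∀ (τ : Bool) (p q : Fin 3), p ≠ q →
      (m τ p - m τ q : MvPolynomial (Fin 3) k) ∈ J → 6 ≤ Module.finrank k (piece J 3) := by
    intro τ p q hpq h
    cases τ
    · exact six_le_of_false (all_diff hs hpq h)
    · exact six_le_of_true (all_diff hs hpq h)
  -- cancel a nonzero scalar
  have hC : ∀ (c : k) (f : MvPolynomial (Fin 3) k), c ≠ 0 → C c * f ∈ J → f ∈ J := by
    intro c f hc hf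
    have := Ideal.mul_mem_left J (C c⁻¹) hf
    rwa [← mul_assoc, ← C_mul, inv_mul_cancel₀ hc, C_1, one_mul] at this
  by_cases hij : i = j
  · subst hij
    have hτ : τ ≠ τ' := fun h => hne ⟨h, rfl⟩
    have hall : ∀ l : Fin 3, (C a * m τ l + C b * m τ' l : MvPolynomial (Fin 3) k) ∈ J := by
      intro l
      have := mem_of_symm hs (Equiv.swap i l) h
      simpa [rename_m] using this
    by_cases hb : b = 0
    · right
      have h0 : ∀ l : Fin 3, (m τ l : MvPolynomial (Fin 3) k) ∈ J := by
        intro l
        have := hall l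
        rw [hb, C_0, zero_mul, add_zero] at this
        exact hC a _ ha this
      exact hsix τ 0 1 (by decide) (Ideal.sub_mem _ (h0 0) (h0 1))
    · left
      cases τ
      · cases τ'
        · exact absurd rfl hτ
        · apply three_le hb (b := a)
          intro l
          rw [add_comm]
          exact hall l
      · cases τ'
        · exact three_le ha hall
        · exact absurd rfl hτ
  · right
    obtain ⟨l, hli, hlj⟩ : ∃ l : Fin 3, l ≠ i ∧ l ≠ j := by
      clear h hne
      revert i j
      decide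
    have h1 := mem_of_symm hs (Equiv.swap i l) h
    have h2 : (Equiv.swap i l) j = j := Equiv.swap_apply_of_ne_of_ne (Ne.symm hij) hlj.symm
    simp only [map_add, map_mul, rename_C, rename_m, Equiv.swap_apply_left, h2] at h1
    have h3 := Ideal.sub_mem _ h h1
    apply hsix τ i l hli.symm
    apply hC a _ ha
    have h4 : (C a * (m τ i - m τ l) : MvPolynomial (Fin 3) k) =
        C a * m τ i + C b * m τ' j - (C a * m τ l + C b * m τ' j) := by ring
    rw [h4]
    exact h3

theorem main [CharZero k] (J : Ideal (MvPolynomial (Fin 3) k)) (hh : HomogIdeal J)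
    (hs : SymmIdeal J) (hg : GenByMonomialsBinomials J) :
    ∃ d, d ≤ 3 ∧ hilb (ideal k) d ≠ hilb J d := by
  by_contra hcon
  push Not at hcon
  have h0 := finrank_piece_eq (hcon 0 (by norm_num))
  have h1 := finrank_piece_eq (hcon 1 (by norm_num))
  have h2 := finrank_piece_eq (hcon 2 (by norm_num))
  have h3 := finrank_piece_eq (hcon 3 (by norm_num))
  rw [piece_bot (by norm_num), finrank_bot, Submodule.finrank_eq_zero] at h0 h1
  obtain ⟨s, t, a, b, hst, hs2, ht2, ha, hmem⟩ :=
    exists_two_term hh hg h0 h1 (by rw [h2]; exact finrank_piece_two_ne)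
  obtain ⟨τ, i, hi⟩ := exists_m (k := k) s hs2
  obtain ⟨τ', j, hj⟩ := exists_m (k := k) t ht2
  have hne : ¬ (τ = τ' ∧ i = j) := by
    rintro ⟨rfl, rfl⟩
    rw [← hj] at hi
    exact hst (monomial_left_injective one_ne_zero hi)
  have h4 : (C a * m τ i + C b * m τ' j : MvPolynomial (Fin 3) k) ∈ J := by
    rw [← hi, ← hj, C_mul_monomial, C_mul_monomial, mul_one, mul_one]
    exact hmem
  rcases key hs ha hne h4 with h | h
  · rw [h2] at h
    have := finrank_piece_two_le (k := k)
    omega
  · rw [h3] at h
    have := finrank_piece_three_le (k := k)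
    omega

end Concrete

/-- **Negative answer to the question.** Over every field `k` of characteristic zero there is a
homogeneous `f ∈ k[x_0, x_1, x_2]` of degree two (namely `(x_0 + x_1 + x_2) * (x_0 - x_1)`) such
that the principal symmetric ideal `I = (f)_{S_3}` is homogeneous and symmetric, no minimal
homogeneous generating set of `I` contains a `k`-symmetric polynomial (indeed every `k`-symmetric
element of `I` lies in `m I`, where `m = (x_0, x_1, x_2)`), and no homogeneous symmetric ideal `J`
generated by monomials and binomials has the same Hilbert function as `I`. -/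
theorem result (k : Type*) [Field k] [CharZero k] :
    ∃ f : MvPolynomial (Fin 3) k, f.IsHomogeneous 2 ∧
      HomogIdeal (principalSymm f) ∧ SymmIdeal (principalSymm f) ∧
      (∀ S, IsMinGenSet S (principalSymm f) → ∀ g ∈ S, ¬ KSymmetric g) ∧
      (∀ g ∈ principalSymm f, KSymmetric g →
        g ∈ Ideal.span (Set.range (X : Fin 3 → MvPolynomial (Fin 3) k)) * principalSymm f) ∧
      ∀ J : Ideal (MvPolynomial (Fin 3) k),
        HomogIdeal J → SymmIdeal J → GenByMonomialsBinomials J →
          ¬ ∀ d : ℕ, hilb (principalSymm f) d = hilb J d := by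
  refine ⟨gen k, isHomogeneous_gen, homogIdeal_ideal, principalSymm_symm _, ?_, ?_, ?_⟩
  · intro S hS g hg hsym
    have hgI : g ∈ ideal k := by
      have := Ideal.subset_span (α := MvPolynomial (Fin 3) k) hg
      rwa [hS.2.1] at this
    exact minGen_not_mem hS hg (ksymm_mem hgI hsym)
  · intro g hg hsym
    exact ksymm_mem hg hsym
  · intro J hh hs hg hcon
    obtain ⟨d, -, hd⟩ := main J hh hs hg
    exact hd (hcon d)

end Pool.Agent.Results.MP_f9b6b5_al.NoBinomialHilbert
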